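import Mathlib
import Pool.Agent.Helper33.DZ.Stmts

/-!
# The periods of a cusp form satisfy the relations of an even period polynomial
-/

open Complex Polynomial

namespace Pool.Agent.Helper33.DZ

lemma perc_fun (w : ℕ) (F : ℂ → ℂ) (c : ℕ → ℂ) (hev : Even w)
    (hc1 : ∀ X : ℂ, X ≠ 0 → F X = -X ^ w * F (-1 / X))
    (hc2 : ∀ X : ℂ, X ≠ 0 → X + 1 ≠ 0 → F X = F (X + 1) + (X + 1) ^ w * F (X / (X + 1)))
    (hE : ∀ X : ℂ, X ≠ 0 → F X + F (-X) = 2 * I * ∑ n ∈ Finset.range (w + 1), c n * X ^ n)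
    (X : ℂ) (hX : X ≠ 0) (hX1 : X + 1 ≠ 0) :
    ∑ n ∈ Finset.range (w + 1), c n * X ^ n =
      ∑ n ∈ Finset.range (w + 1), c n * (X + 1) ^ n -
        ∑ n ∈ Finset.range (w + 1), c n * ((X + 1) ^ n * X ^ (w - n)) := by
  have e1 := hc2 X hX hX1
  have e2 := hc1 (X / (X + 1)) (div_ne_zero hX hX1)
  have e2' : -1 / (X / (X + 1)) = -((X + 1) / X) := by field_simp
  rw [e2'] at e2
  have e3 := hc2 (-(X + 1)) (neg_ne_zero.2 hX1) (by
    intro h; apply hX; linear_combination -h)
  have e3' : -(X + 1) + 1 = -X := by ring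
  rw [e3', neg_div_neg_eq, hev.neg_pow] at e3
  have e4 := hE X hX
  have e5 := hE (X + 1) hX1
  have e6 := hE ((X + 1) / X) (div_ne_zero hX1 hX)
  have e7 : X ^ w * ∑ n ∈ Finset.range (w + 1), c n * ((X + 1) / X) ^ n =
      ∑ n ∈ Finset.range (w + 1), c n * ((X + 1) ^ n * X ^ (w - n)) := by
    rw [Finset.mul_sum]
    apply Finset.sum_congr rfl
    intro n hn
    have hn' : n ≤ w := by
      have := Finset.mem_range.1 hn; omega
    have h1 : X ^ w = X ^ (w - n) * X ^ n := by rw [← pow_add, Nat.sub_add_cancel hn']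
    rw [h1, div_pow]
    have h2 : X ^ n ≠ 0 := pow_ne_zero _ hX
    field_simp
  have e8 : (X + 1) ^ w * (X / (X + 1)) ^ w = X ^ w := by
    rw [div_pow]
    have h2 : (X + 1) ^ w ≠ 0 := pow_ne_zero _ hX1
    field_simp
  have e9 : F X = F (X + 1) - X ^ w * F (-((X + 1) / X)) := by
    rw [e1, e2]
    linear_combination (-F (-((X + 1) / X))) * e8
  have e10 : F (-X) = F (-(X + 1)) - X ^ w * F ((X + 1) / X) := by
    linear_combination -e3
  have hI : (2 * I : ℂ) ≠ 0 := by simp
  apply mul_left_cancel₀ hI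
  rw [← e7]
  linear_combination -e4 + e9 + e10 + e5 - X ^ w * e6

lemma perc_poly (w : ℕ) (c : ℕ → ℂ)
    (h : ∀ X : ℂ, X ≠ 0 → X + 1 ≠ 0 → ∑ n ∈ Finset.range (w + 1), c n * X ^ n =
      ∑ n ∈ Finset.range (w + 1), c n * (X + 1) ^ n -
        ∑ n ∈ Finset.range (w + 1), c n * ((X + 1) ^ n * X ^ (w - n))) (a : ℕ) (ha : a ≤ w) :
    c a = ∑ n ∈ Finset.range (w + 1), ((n.choose a : ℕ) : ℂ) * c n -
      ∑ n ∈ Finset.range (w + 1), ((n.choose (w - a) : ℕ) : ℂ) * c n := by
  have hp : (∑ n ∈ Finset.range (w + 1), C (c n) * X ^ n : ℂ[X]) =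
      ∑ n ∈ Finset.range (w + 1), C (c n) * (X + 1) ^ n -
        ∑ n ∈ Finset.range (w + 1), C (c n) * ((X + 1) ^ n * X ^ (w - n)) := by
    apply Polynomial.eq_of_infinite_eval_eq
    have hinf : (({0, -1} : Set ℂ)ᶜ).Infinite := (Set.toFinite _).infinite_compl
    apply hinf.mono
    intro x hx
    simp only [Set.mem_compl_iff, Set.mem_insert_iff, Set.mem_singleton_iff, not_or] at hx
    have h1 := h x hx.1 (by
      intro hcon; apply hx.2; linear_combination hcon)
    simp only [Set.mem_ofPred_eq, eval_finsetSum, eval_sub, eval_mul, eval_C, eval_pow, eval_X,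
      eval_add, eval_one]
    exact h1
  have hq := congrArg (fun p => p.coeff a) hp
  simp only [finsetSum_coeff, coeff_sub, coeff_C_mul, coeff_X_add_one_pow,
    coeff_mul_X_pow'] at hq
  have h1 : (∑ x ∈ Finset.range (w + 1), if x ≤ a then (C (c x)).coeff (a - x) else 0) =
      c a := by
    rw [Finset.sum_eq_single a]
    · rw [if_pos le_rfl, Nat.sub_self, coeff_C_zero]
    · intro b _ hb
      split_ifs with h2
      · exact coeff_C_of_ne_zero (by omega)
      · rfl
    · intro hcon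
      exact absurd (Finset.mem_range.2 (by omega)) hcon
  rw [h1] at hq
  rw [hq]
  congr 1
  · apply Finset.sum_congr rfl
    intro n _
    ring
  · apply Finset.sum_congr rfl
    intro n hn
    have hn' : n ≤ w := by
      have := Finset.mem_range.1 hn; omega
    by_cases h2 : w - n ≤ a
    · rw [if_pos h2]
      have h3 : n.choose (a - (w - n)) = n.choose (w - a) := by
        apply Nat.choose_symm_of_eq_add
        omega
      rw [h3]; ring
    · rw [if_neg h2, Nat.choose_eq_zero_of_lt (by omega)]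
      simp

theorem st_PERC (h1 : ST_COC) (h2 : ST_EXPA) : ST_PERC := by
  intro w g hw hev hg
  obtain ⟨hc1, hc2⟩ := h1 w g hev hg
  obtain ⟨ha, hE⟩ := h2 w g hev hg.diff hg.zero hg.real
  have hcC := perc_poly w (fun n => ((cf w (ph g) n : ℝ) : ℂ))
    (perc_fun w (RR w g) _ hev hc1 hc2 hE)
  have hcR : ∀ a, a ≤ w → cf w (ph g) a = hh w (cf w (ph g)) a - hh w (cf w (ph g)) (w - a) := by
    intro a haw
    unfold hh
    exact_mod_cast hcC a haw
  have hsplit : ∀ a, hh w (cc w (ph g)) a = hh w (cf w (ph g)) a -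
      cf w (ph g) 0 * ((Nat.choose 0 a : ℕ) : ℝ) + cf w (ph g) 0 * ((w.choose a : ℕ) : ℝ) := by
    intro a
    unfold hh
    obtain ⟨v, rfl⟩ : ∃ v, w = v + 1 := ⟨w - 1, by omega⟩
    have hw0 : cf (v + 1) (ph g) (v + 1) = -cf (v + 1) (ph g) 0 := by
      have := ha 0 (Nat.zero_le _)
      simpa using this
    rw [Finset.sum_range_succ, Finset.sum_range_succ', Finset.sum_range_succ,
      Finset.sum_range_succ', hw0]
    have e1 : cc (v + 1) (ph g) (v + 1) = 0 := by simp [cc]
    have e2 : cc (v + 1) (ph g) 0 = 0 := by simp [cc]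
    rw [e1, e2]
    have e3 : ∑ k ∈ Finset.range v, (((k + 1).choose a : ℕ) : ℝ) * cc (v + 1) (ph g) (k + 1) =
        ∑ k ∈ Finset.range v, (((k + 1).choose a : ℕ) : ℝ) * cf (v + 1) (ph g) (k + 1) := by
      apply Finset.sum_congr rfl
      intro k hk
      have hk' := Finset.mem_range.1 hk
      unfold cc
      rw [if_pos ⟨by omega, by omega⟩]
    rw [e3]
    ring
  refine ⟨?_, ?_, ?_, ?_⟩
  · intro n hn
    unfold cc
    split_ifs
    · unfold cf
      rw [if_neg (Nat.not_even_iff_odd.2 hn)]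
    · rfl
  · simp [cc]
  · intro n hn
    unfold cc
    rw [if_neg (by omega)]
  · intro a haw
    rw [hsplit a, hsplit (w - a)]
    have h3 := hcR a haw
    have h4 : w.choose (w - a) = w.choose a := Nat.choose_symm haw
    rw [h4]
    rcases Nat.eq_zero_or_pos a with h5 | h5
    · subst h5
      have e1 : cc w (ph g) 0 = 0 := by simp [cc]
      have e2 : Nat.choose 0 (w - 0) = 0 := Nat.choose_eq_zero_of_lt (by omega)
      rw [e1, e2, Nat.choose_zero_right]
      push_cast
      linarith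
    · rcases Nat.lt_or_ge a w with h6 | h6
      · have e1 : cc w (ph g) a = cf w (ph g) a := by
          unfold cc; rw [if_pos ⟨h5, h6⟩]
        have e2 : Nat.choose 0 (w - a) = 0 := Nat.choose_eq_zero_of_lt (by omega)
        have e3 : Nat.choose 0 a = 0 := Nat.choose_eq_zero_of_lt (by omega)
        rw [e1, e2, e3]
        push_cast
        linarith
      · have h7 : a = w := by omega
        subst h7
        have e1 : cc a (ph g) a = 0 := by simp [cc]
        have e3 : Nat.choose 0 a = 0 := Nat.choose_eq_zero_of_lt (by omega)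
        have e4 : cf a (ph g) a = -cf a (ph g) 0 := by
          have := ha 0 (Nat.zero_le _)
          simpa using this
        rw [e1, e3, Nat.sub_self, Nat.choose_zero_right]
        rw [Nat.sub_self] at h3
        push_cast
        linarith

end Pool.Agent.Helper33.DZ
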